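import Pool.Agent.Lib.BSDP.Def

/-!
The covariants of a binary quartic `g = a X ^ 4 + b X ^ 3 Z + c X ^ 2 Z ^ 2 + d X Z ^ 3 + e Z ^ 4`
with invariants `I = -48 A`, `J = -1728 B`, and the class `zcov` in the cubic algebra
`F[θ]`, `θ ^ 3 = - A θ - B`, of the two-covering `Y ^ 2 = g` of `y ^ 2 = x ^ 3 + A x + B`:
`zcov = (3 b ^ 2 - 8 a c) / 3 - 16 a θ`, the leading coefficient of the quartic form
`z (X, Z) = g₄ (X, Z) / 3 - 16 g (X, Z) θ`, and `zcov * z (X, Z) = Q (X, Z) ^ 2` for a quadratic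
form `Q` over `F[θ]`; the norm of `z (X, Z)` is `g₆ (X, Z) ^ 2`.
-/

set_option autoImplicit false

namespace Pool.Agent.BSDP

variable {F : Type} [Field F]

/-- The quartic form. -/
def qg (a b c d e X Z : F) : F :=
  a * X ^ 4 + b * X ^ 3 * Z + c * X ^ 2 * Z ^ 2 + d * X * Z ^ 3 + e * Z ^ 4

/-- The quartic covariant. -/
def qg4 (a b c d e X Z : F) : F :=
  (3 * b ^ 2 - 8 * a * c) * X ^ 4 + 4 * (b * c - 6 * a * d) * X ^ 3 * Z
    + 2 * (2 * c ^ 2 - 24 * a * e - 3 * b * d) * X ^ 2 * Z ^ 2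
    + 4 * (c * d - 6 * b * e) * X * Z ^ 3 + (3 * d ^ 2 - 8 * c * e) * Z ^ 4

/-- The sextic covariant. -/
def qg6 (a b c d e X Z : F) : F :=
  (b ^ 3 + 8 * a ^ 2 * d - 4 * a * b * c) * X ^ 6
    + 2 * (16 * a ^ 2 * e + 2 * a * b * d - 4 * a * c ^ 2 + b ^ 2 * c) * X ^ 5 * Z
    + 5 * (8 * a * b * e + b ^ 2 * d - 4 * a * c * d) * X ^ 4 * Z ^ 2
    + 20 * (b ^ 2 * e - a * d ^ 2) * X ^ 3 * Z ^ 3
    - 5 * (8 * a * d * e + b * d ^ 2 - 4 * b * c * e) * X ^ 2 * Z ^ 4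
    - 2 * (16 * a * e ^ 2 + 2 * b * d * e - 4 * c ^ 2 * e + c * d ^ 2) * X * Z ^ 5
    - (d ^ 3 + 8 * b * e ^ 2 - 4 * c * d * e) * Z ^ 6

/-- The class of the two-covering `Y ^ 2 = g (X, Z)`. -/
def zcov (A B a b c _d _e : F) : Cu A B := ⟨(3 * b ^ 2 - 8 * a * c) / 3, -16 * a, 0⟩

/-- The covariant form `z (X, Z)`. -/
def zform (A B a b c d e X Z : F) : Cu A B := ⟨qg4 a b c d e X Z / 3, -16 * qg a b c d e X Z, 0⟩

/-- The middle coefficient of `Q`. -/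
def qc1 (A B a b c d : F) : Cu A B := ⟨2 * (b * c - 6 * a * d) / 3, -8 * b, 0⟩

/-- The last coefficient of `Q`. -/
def qc2 (A B b c d : F) : Cu A B := ⟨4 * c ^ 2 / 9 - b * d, -8 * c / 3, -32⟩

private theorem solveA (h2 : (2 : F) ≠ 0) (h3 : (3 : F) ≠ 0) {I A : F} (hI : I = -48 * A) :
    A = -I / (2 ^ 4 * 3) := by
  rw [hI]
  field_simp
  ring

private theorem solveB (h2 : (2 : F) ≠ 0) (h3 : (3 : F) ≠ 0) {J B : F} (hJ : J = -1728 * B) :
    B = -J / (2 ^ 6 * 3 ^ 3) := by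
  rw [hJ]
  field_simp
  ring

variable (h2 : (2 : F) ≠ 0) (h3 : (3 : F) ≠ 0) {A B a b c d e : F}
  (hI : 12 * a * e - 3 * b * d + c ^ 2 = -48 * A)
  (hJ : 72 * a * c * e + 9 * b * c * d - 27 * a * d ^ 2 - 27 * e * b ^ 2 - 2 * c ^ 3 = -1728 * B)

include h2 h3 hI hJ

/-- `zcov * z (X, Z)` is the square of `Q (X, Z) = zcov X ^ 2 + qc1 X Z + qc2 Z ^ 2`. -/
theorem zcov_mul_zform (X Z : F) : zcov A B a b c d e * zform A B a b c d e X Z =
    (X ^ 2 • zcov A B a b c d e + (X * Z) • qc1 A B a b c d + Z ^ 2 • qc2 A B b c d) *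
    (X ^ 2 • zcov A B a b c d e + (X * Z) • qc1 A B a b c d + Z ^ 2 • qc2 A B b c d) := by
  have hA := solveA h2 h3 hI
  have hB := solveB h2 h3 hJ
  have e9 : (9 : F) = 3 ^ 2 := by norm_num
  ext
  · simp only [Cu.mul_x, Cu.add_x, Cu.add_y, Cu.add_z, Cu.smul_x, Cu.smul_y, Cu.smul_z, zcov,
      zform, qc1, qc2, qg, qg4]
    rw [hB, e9]
    field_simp
    ring
  · simp only [Cu.mul_y, Cu.add_x, Cu.add_y, Cu.add_z, Cu.smul_x, Cu.smul_y, Cu.smul_z, zcov,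
      zform, qc1, qc2, qg, qg4]
    rw [hA, hB, e9]
    field_simp
    ring
  · simp only [Cu.mul_z, Cu.add_x, Cu.add_y, Cu.add_z, Cu.smul_x, Cu.smul_y, Cu.smul_z, zcov,
      zform, qc1, qc2, qg, qg4]
    rw [hA, e9]
    field_simp
    ring

/-- Coefficient of `X ^ 2 Z ^ 2`. -/
theorem zcov_mul_two : zcov A B a b c d e *
    ⟨2 * (2 * c ^ 2 - 24 * a * e - 3 * b * d) / 3, -16 * c, 0⟩ =
    qc1 A B a b c d * qc1 A B a b c d +
      (zcov A B a b c d e * qc2 A B b c d + zcov A B a b c d e * qc2 A B b c d) := by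
  have hA := solveA h2 h3 hI
  have hB := solveB h2 h3 hJ
  have e9 : (9 : F) = 3 ^ 2 := by norm_num
  ext
  · simp only [Cu.mul_x, Cu.add_x, zcov, qc1, qc2]
    rw [hB, e9]
    field_simp
    ring
  · simp only [Cu.mul_y, Cu.add_y, zcov, qc1, qc2]
    rw [hA, hB, e9]
    field_simp
    ring
  · simp only [Cu.mul_z, Cu.add_z, zcov, qc1, qc2]
    rw [hA, e9]
    field_simp
    ring

/-- Coefficient of `X Z ^ 3`. -/
theorem zcov_mul_three : zcov A B a b c d e * ⟨4 * (c * d - 6 * b * e) / 3, -16 * d, 0⟩ =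
    qc1 A B a b c d * qc2 A B b c d + qc1 A B a b c d * qc2 A B b c d := by
  have hA := solveA h2 h3 hI
  have hB := solveB h2 h3 hJ
  have e9 : (9 : F) = 3 ^ 2 := by norm_num
  ext
  · simp only [Cu.mul_x, Cu.add_x, zcov, qc1, qc2]
    rw [hB, e9]
    field_simp
    ring
  · simp only [Cu.mul_y, Cu.add_y, zcov, qc1, qc2]
    rw [hA, hB, e9]
    field_simp
    ring
  · simp only [Cu.mul_z, Cu.add_z, zcov, qc1, qc2]
    rw [hA, e9]
    field_simp
    ring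

/-- Coefficient of `Z ^ 4`. -/
theorem zcov_mul_four : zcov A B a b c d e * ⟨(3 * d ^ 2 - 8 * c * e) / 3, -16 * e, 0⟩ =
    qc2 A B b c d * qc2 A B b c d := by
  have hA := solveA h2 h3 hI
  have hB := solveB h2 h3 hJ
  have e9 : (9 : F) = 3 ^ 2 := by norm_num
  ext
  · simp only [Cu.mul_x, zcov, qc2]
    rw [hB, e9]
    field_simp
    ring
  · simp only [Cu.mul_y, zcov, qc2]
    rw [hA, hB, e9]
    field_simp
    ring
  · simp only [Cu.mul_z, zcov, qc2]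
    rw [hA, e9]
    field_simp
    ring

/-- The norm of `z (X, Z)`. -/
theorem norm_zform (X Z : F) :
    (zform A B a b c d e X Z).norm = qg6 a b c d e X Z ^ 2 := by
  have hA := solveA h2 h3 hI
  have hB := solveB h2 h3 hJ
  have h : (zform A B a b c d e X Z).norm = (qg4 a b c d e X Z / 3) ^ 3
      + A * (qg4 a b c d e X Z / 3) * (-16 * qg a b c d e X Z) ^ 2
      - B * (-16 * qg a b c d e X Z) ^ 3 := by
    simp only [Cu.norm, zform]
    ring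
  rw [h, hA, hB]
  simp only [qg, qg4, qg6]
  field_simp
  ring

/-- The norm of `zcov`. -/
theorem norm_zcov :
    (zcov A B a b c d e).norm = (b ^ 3 + 8 * a ^ 2 * d - 4 * a * b * c) ^ 2 := by
  have h := norm_zform h2 h3 hI hJ 1 0
  have h1 : zform A B a b c d e 1 0 = zcov A B a b c d e := by
    ext
    · simp [zform, zcov, qg4]
    · simp [zform, zcov, qg]
    · rfl
  rw [h1] at h
  rw [h]
  simp [qg6]

omit h2 h3 hI hJ

/-- The invariants of a quartic with a double root at `(1 : t)`. -/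
theorem invs_of_double {t : F} (hg : a + b * t + c * t ^ 2 + d * t ^ 3 + e * t ^ 4 = 0)
    (hg' : b + 2 * c * t + 3 * d * t ^ 2 + 4 * e * t ^ 3 = 0) :
    12 * a * e - 3 * b * d + c ^ 2 = (c + 3 * d * t + 6 * e * t ^ 2) ^ 2 ∧
    72 * a * c * e + 9 * b * c * d - 27 * a * d ^ 2 - 27 * e * b ^ 2 - 2 * c ^ 3 =
      -2 * (c + 3 * d * t + 6 * e * t ^ 2) ^ 3 := by
  have ha : a = -(b * t + c * t ^ 2 + d * t ^ 3 + e * t ^ 4) := by linear_combination hg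
  have hb : b = -(2 * c * t + 3 * d * t ^ 2 + 4 * e * t ^ 3) := by linear_combination hg'
  subst ha
  subst hb
  constructor <;> ring

include h2 h3 hI hJ

/-- If the invariants are `I = w ^ 2`, `J = -2 w ^ 3` then the discriminant vanishes. -/
theorem disc_eq_zero {w : F} (hw : 12 * a * e - 3 * b * d + c ^ 2 = w ^ 2)
    (hw' : 72 * a * c * e + 9 * b * c * d - 27 * a * d ^ 2 - 27 * e * b ^ 2 - 2 * c ^ 3 =
      -2 * w ^ 3) : 4 * A ^ 3 + 27 * B ^ 2 = 0 := by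
  rw [hI] at hw
  rw [hJ] at hw'
  have hA : A = -(w ^ 2) / (2 ^ 4 * 3) := solveA h2 h3 hw.symm
  have hB : B = -(-2 * w ^ 3) / (2 ^ 6 * 3 ^ 3) := solveB h2 h3 hw'.symm
  rw [hA, hB]
  field_simp
  ring

end Pool.Agent.BSDP
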