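import Pool.Agent.Lib.BSDP.H.Alg

/-!
If the class `zcov` of a binary quartic `g` of nonzero discriminant is a square in the field
`F[θ]`, then `g` has a nontrivial zero over `F`.

Proof. Let `zcov = s ^ 2`, `P (X, Z) = Q (X, Z) adj s`, so that
`(N s) ^ 2 z (X, Z) = P (X, Z) ^ 2`, `P = P₀ + P₁ θ + P₂ θ ^ 2`. The coefficient of `θ ^ 2` gives
`P₁ ^ 2 + 2 P₀ P₂ - A P₂ ^ 2 = 0`. If `P₂` has a nontrivial zero `(X, Z)` then `P₁` and hence
`g` vanish there. Otherwise `P₂` divides `P₁` and then `P₀`, so `g` is a constant multiple of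
`P₂ ^ 2`, and its discriminant is zero.
-/

set_option autoImplicit false

namespace Pool.Agent.BSDP

variable {F : Type} [Field F]

/-- The argument with coefficients. -/
private theorem core (h2 : (2 : F) ≠ 0) {A B a b c d e N x0 x1 x2 y0 y1 y2 z0 z1 z2 : F}
    (hN : N ≠ 0)
    (hno : ∀ w : F, 12 * a * e - 3 * b * d + c ^ 2 = w ^ 2 →
      72 * a * c * e + 9 * b * c * d - 27 * a * d ^ 2 - 27 * e * b ^ 2 - 2 * c ^ 3 =
        -2 * w ^ 3 → False)
    (E0z : 2 * x0 * z0 + y0 ^ 2 - A * z0 ^ 2 = 0)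
    (E1z : x0 * z1 + y0 * y1 + z0 * x1 - A * (z0 * z1) = 0)
    (E2z : 2 * x1 * z1 + y1 ^ 2 - A * z1 ^ 2 + 2 * (x0 * z2 + y0 * y2 + z0 * x2 - A * (z0 * z2))
      = 0)
    (E3z : x1 * z2 + y1 * y2 + z1 * x2 - A * (z1 * z2) = 0)
    (E4z : 2 * x2 * z2 + y2 ^ 2 - A * z2 ^ 2 = 0)
    (E0y : -16 * a * N ^ 2 = 2 * x0 * y0 - 2 * A * (y0 * z0) - B * z0 ^ 2)
    (E1y : -16 * b * N ^ 2 = 2 * (x0 * y1 + y0 * x1 - A * (y0 * z1 + z0 * y1) - B * (z0 * z1)))
    (E2y : -16 * c * N ^ 2 = 2 * x1 * y1 - 2 * A * (y1 * z1) - B * z1 ^ 2 +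
      2 * (x0 * y2 + y0 * x2 - A * (y0 * z2 + z0 * y2) - B * (z0 * z2)))
    (E3y : -16 * d * N ^ 2 = 2 * (x1 * y2 + y1 * x2 - A * (y1 * z2 + z1 * y2) - B * (z1 * z2)))
    (E4y : -16 * e * N ^ 2 = 2 * x2 * y2 - 2 * A * (y2 * z2) - B * z2 ^ 2) :
    ∃ X Z : F, (X ≠ 0 ∨ Z ≠ 0) ∧
      a * X ^ 4 + b * X ^ 3 * Z + c * X ^ 2 * Z ^ 2 + d * X * Z ^ 3 + e * Z ^ 4 = 0 := by
  have h16 : (-16 : F) * N ^ 2 ≠ 0 := by
    have : (16 : F) = 2 ^ 4 := by norm_num
    rw [this]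
    exact mul_ne_zero (neg_ne_zero.2 (pow_ne_zero _ h2)) (pow_ne_zero _ hN)
  by_cases hz : ∃ X Z : F, (X ≠ 0 ∨ Z ≠ 0) ∧ z0 * X ^ 2 + z1 * (X * Z) + z2 * Z ^ 2 = 0
  · obtain ⟨X, Z, hXZ, hP⟩ := hz
    refine ⟨X, Z, hXZ, ?_⟩
    have hPy : y0 * X ^ 2 + y1 * (X * Z) + y2 * Z ^ 2 = 0 := by
      apply pow_eq_zero_iff (two_ne_zero) |>.1
      linear_combination X ^ 4 * E0z + 2 * X ^ 3 * Z * E1z + X ^ 2 * Z ^ 2 * E2z
        + 2 * X * Z ^ 3 * E3z + Z ^ 4 * E4z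
        - (2 * (x0 * X ^ 2 + x1 * (X * Z) + x2 * Z ^ 2)
          - A * (z0 * X ^ 2 + z1 * (X * Z) + z2 * Z ^ 2)) * hP
    apply mul_left_cancel₀ h16
    rw [mul_zero]
    linear_combination X ^ 4 * E0y + X ^ 3 * Z * E1y + X ^ 2 * Z ^ 2 * E2y
      + X * Z ^ 3 * E3y + Z ^ 4 * E4y
      + (2 * (x0 * X ^ 2 + x1 * (X * Z) + x2 * Z ^ 2)
          - 2 * A * (z0 * X ^ 2 + z1 * (X * Z) + z2 * Z ^ 2)) * hPy
      - B * (z0 * X ^ 2 + z1 * (X * Z) + z2 * Z ^ 2) * hP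
  · exfalso
    have hz0 : z0 ≠ 0 := by
      intro h
      exact hz ⟨1, 0, Or.inl one_ne_zero, by rw [h]; ring⟩
    obtain ⟨l, hl⟩ : ∃ l, y0 = l * z0 := ⟨y0 / z0, by field_simp⟩
    obtain ⟨R0, hR0⟩ : ∃ R, R = -(2 * x0 - A * z0) - 2 * l * y0 + l ^ 2 * z0 := ⟨_, rfl⟩
    obtain ⟨R1, hR1⟩ : ∃ R, R = -(2 * x1 - A * z1) - 2 * l * y1 + l ^ 2 * z1 := ⟨_, rfl⟩
    obtain ⟨R2, hR2⟩ : ∃ R, R = -(2 * x2 - A * z2) - 2 * l * y2 + l ^ 2 * z2 := ⟨_, rfl⟩
    have r0 : R0 = 0 := by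
      apply mul_left_cancel₀ hz0
      rw [hR0, mul_zero]
      linear_combination -E0z + (y0 - l * z0) * hl
    have r1 : R1 = 0 := by
      apply mul_left_cancel₀ hz0
      rw [mul_zero]
      have : z0 * R1 + z1 * R0 = 0 := by
        rw [hR0, hR1]
        linear_combination -2 * E1z + 2 * (y1 - l * z1) * hl
      rw [r0] at this
      linear_combination this
    have a2 : (y1 - l * z1) ^ 2 = z0 * R2 := by
      have : z0 * R2 + z1 * R1 + z2 * R0 = (y1 - l * z1) ^ 2 := by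
        rw [hR0, hR1, hR2]
        linear_combination -E2z + 2 * (y2 - l * z2) * hl
      rw [r0, r1] at this
      linear_combination -this
    have ab : 2 * ((y1 - l * z1) * (y2 - l * z2)) = z1 * R2 := by
      have : z1 * R2 + z2 * R1 = 2 * ((y1 - l * z1) * (y2 - l * z2)) := by
        rw [hR1, hR2]
        linear_combination -2 * E3z
      rw [r1] at this
      linear_combination -this
    have b2 : (y2 - l * z2) ^ 2 = z2 * R2 := by
      rw [hR2]
      linear_combination E4z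
    by_cases hR : R2 = 0
    · rw [hR, mul_zero] at a2 b2
      have ha : y1 = l * z1 := sub_eq_zero.1 (pow_eq_zero_iff (two_ne_zero) |>.1 a2)
      have hb : y2 = l * z2 := sub_eq_zero.1 (pow_eq_zero_iff (two_ne_zero) |>.1 b2)
      obtain ⟨μ, hμ⟩ : ∃ μ, 2 * μ = A - l ^ 2 := ⟨(A - l ^ 2) / 2, by field_simp⟩
      have hx0 : x0 = μ * z0 := by
        apply mul_left_cancel₀ h2
        linear_combination hR0 - r0 - z0 * hμ - 2 * l * hl
      have hx1 : x1 = μ * z1 := by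
        apply mul_left_cancel₀ h2
        linear_combination hR1 - r1 - z1 * hμ - 2 * l * ha
      have hx2 : x2 = μ * z2 := by
        apply mul_left_cancel₀ h2
        linear_combination hR2 - hR - z2 * hμ - 2 * l * hb
      obtain ⟨ρ, hρ⟩ : ∃ ρ, -16 * N ^ 2 * ρ = 2 * μ * l - 2 * A * l - B :=
        ⟨(2 * μ * l - 2 * A * l - B) / (-16 * N ^ 2), mul_div_cancel₀ _ h16⟩
      have ka : a = ρ * z0 ^ 2 := by
        apply mul_left_cancel₀ h16
        rw [hx0, hl] at E0y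
        linear_combination E0y - z0 ^ 2 * hρ
      have kb : b = ρ * (2 * z0 * z1) := by
        apply mul_left_cancel₀ h16
        rw [hx0, hx1, hl, ha] at E1y
        linear_combination E1y - 2 * z0 * z1 * hρ
      have kc : c = ρ * (z1 ^ 2 + 2 * z0 * z2) := by
        apply mul_left_cancel₀ h16
        rw [hx0, hx1, hx2, hl, ha, hb] at E2y
        linear_combination E2y - (z1 ^ 2 + 2 * z0 * z2) * hρ
      have kd : d = ρ * (2 * z1 * z2) := by
        apply mul_left_cancel₀ h16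
        rw [hx1, hx2, ha, hb] at E3y
        linear_combination E3y - 2 * z1 * z2 * hρ
      have ke : e = ρ * z2 ^ 2 := by
        apply mul_left_cancel₀ h16
        rw [hx2, hb] at E4y
        linear_combination E4y - z2 ^ 2 * hρ
      apply hno (ρ * (z1 ^ 2 - 4 * z0 * z2))
      · rw [ka, kb, kc, kd, ke]
        ring
      · rw [ka, kb, kc, kd, ke]
        ring
    · apply hz
      refine ⟨-(y2 - l * z2), y1 - l * z1, ?_, ?_⟩
      · by_contra hc
        push Not at hc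
        rw [hc.2, zero_pow two_ne_zero] at a2
        exact (mul_ne_zero hz0 hR) a2.symm
      · apply mul_left_cancel₀ hR
        linear_combination -(y2 - l * z2) ^ 2 * a2 + (y1 - l * z1) * (y2 - l * z2) * ab
          - (y1 - l * z1) ^ 2 * b2

private theorem push {A B : F} {s z w R : Cu A B} (hs : z = s * s) (h : z * w = R) :
    s.norm ^ 2 • w = R * (s.adj * s.adj) := by
  rw [← h, Algebra.smul_def, map_pow, ← Cu.mul_adj, hs]
  ring

/-- If the class of a binary quartic of nonzero discriminant is a square in the field `F[θ]` then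
the quartic has a nontrivial zero over `F`. -/
theorem exists_zero_of_isSquare (h2 : (2 : F) ≠ 0) (h3 : (3 : F) ≠ 0) {A B a b c d e : F}
    (hI : 12 * a * e - 3 * b * d + c ^ 2 = -48 * A)
    (hJ : 72 * a * c * e + 9 * b * c * d - 27 * a * d ^ 2 - 27 * e * b ^ 2 - 2 * c ^ 3 =
      -1728 * B) (hD : 4 * A ^ 3 + 27 * B ^ 2 ≠ 0)
    (hN : ∀ u : Cu A B, u ≠ 0 → u.norm ≠ 0) (hs : IsSquare (zcov A B a b c d e)) :
    ∃ X Z : F, (X ≠ 0 ∨ Z ≠ 0) ∧
      a * X ^ 4 + b * X ^ 3 * Z + c * X ^ 2 * Z ^ 2 + d * X * Z ^ 3 + e * Z ^ 4 = 0 := by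
  by_cases ha : a = 0
  · exact ⟨1, 0, Or.inl one_ne_zero, by rw [ha]; ring⟩
  obtain ⟨s, hs⟩ := hs
  have hs0 : s ≠ 0 := by
    rintro rfl
    have := congrArg Cu.y hs
    rw [mul_zero] at this
    simp only [zcov, Cu.zero_y] at this
    have h16 : (16 : F) = 2 ^ 4 := by norm_num
    rw [h16] at this
    exact (mul_ne_zero (neg_ne_zero.2 (pow_ne_zero _ h2)) ha) this
  have hn := hN s hs0
  obtain ⟨P0, hP0⟩ : ∃ P, P = zcov A B a b c d e * s.adj := ⟨_, rfl⟩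
  obtain ⟨P1, hP1⟩ : ∃ P, P = qc1 A B a b c d * s.adj := ⟨_, rfl⟩
  obtain ⟨P2, hP2⟩ : ∃ P, P = qc2 A B b c d * s.adj := ⟨_, rfl⟩
  have key0 : s.norm ^ 2 • zcov A B a b c d e = P0 * P0 := by
    rw [push hs rfl, hP0]; ring
  have key1 : s.norm ^ 2 • qc1 A B a b c d = P0 * P1 := by
    rw [push hs rfl, hP0, hP1]; ring
  have key2 := (push hs (zcov_mul_two h2 h3 hI hJ)).trans
    (show _ = P1 * P1 + (P0 * P2 + P0 * P2) by rw [hP0, hP1, hP2]; ring)
  have key3 := (push hs (zcov_mul_three h2 h3 hI hJ)).trans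
    (show _ = P1 * P2 + P1 * P2 by rw [hP1, hP2]; ring)
  have key4 := (push hs (zcov_mul_four h2 h3 hI hJ)).trans
    (show _ = P2 * P2 by rw [hP2]; ring)
  have k0z := congrArg Cu.z key0
  have k0y := congrArg Cu.y key0
  have k1z := congrArg Cu.z key1
  have k1y := congrArg Cu.y key1
  have k2z := congrArg Cu.z key2
  have k2y := congrArg Cu.y key2
  have k3z := congrArg Cu.z key3
  have k3y := congrArg Cu.y key3
  have k4z := congrArg Cu.z key4
  have k4y := congrArg Cu.y key4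
  simp only [Cu.smul_y, Cu.smul_z, Cu.add_y, Cu.add_z, Cu.mul_y, Cu.mul_z, zcov, qc1]
    at k0z k0y k1z k1y k2z k2y k3z k3y k4z k4y
  refine core h2 (A := A) (B := B) (a := a) (b := b) (c := c) (d := d) (e := e) (N := s.norm)
    (x0 := P0.x) (x1 := P1.x) (x2 := P2.x) (y0 := P0.y) (y1 := P1.y) (y2 := P2.y)
    (z0 := P0.z) (z1 := P1.z) (z2 := P2.z) hn
    (fun w hw hw' => hD (disc_eq_zero h2 h3 hI hJ hw hw')) ?_ ?_ ?_ ?_ ?_ ?_ ?_ ?_ ?_ ?_
  · linear_combination -k0z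
  · linear_combination -k1z
  · linear_combination -k2z
  · apply mul_left_cancel₀ h2
    linear_combination -k3z
  · linear_combination -k4z
  · linear_combination k0y
  · linear_combination 2 * k1y
  · linear_combination k2y
  · linear_combination k3y
  · linear_combination k4y

end Pool.Agent.BSDP
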