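import Pool.Agent.Lib.BSDP.Def

/-!
Halving of a point on `y ^ 2 = x ^ 3 + A x + B`: if `x - θ = (s₀ + s₁ θ + s₂ θ ^ 2) ^ 2` in
`K[θ]`, `θ ^ 3 = - A θ - B`, then `(x, y)` is twice a point.

Proof. `s₂ ≠ 0`. Put `u = s₁ / s₂`, `m = (s₁ ^ 2 - s₀ s₂ + A s₂ ^ 2) / s₂`,
`n = (s₀ s₁ + B s₂ ^ 2) / s₂`. Then `T ^ 3 + A T + B = (m T + n) ^ 2 + (T - x) (T - u) ^ 2`, so
`Q = (u, m u + n)` is a point whose double is `(x, - (m x + n))`, and `y = ± (m x + n)`.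
-/

set_option autoImplicit false

namespace Pool.Agent.BSDP

open WeierstrassCurve.Affine

private theorem halve {K : Type*} [Field K] [DecidableEq K] (h2 : (2 : K) ≠ 0)
    (W : WeierstrassCurve K)
    [W.IsElliptic] (ha₁ : W.a₁ = 0) (ha₂ : W.a₂ = 0) (ha₃ : W.a₃ = 0) {x y s₀ s₁ s₂ : K}
    (h : W.toAffine.Nonsingular x y) (e₀ : s₀ ^ 2 - 2 * W.a₆ * s₁ * s₂ = x)
    (e₁ : 2 * s₀ * s₁ - 2 * W.a₄ * s₁ * s₂ - W.a₆ * s₂ ^ 2 = -1)
    (e₂ : s₁ ^ 2 + 2 * s₀ * s₂ - W.a₄ * s₂ ^ 2 = 0) :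
    ∃ Q : W.toAffine.Point, Q + Q = Point.some x y h := by
  have hs : s₂ ≠ 0 := by
    rintro rfl
    have : s₁ = 0 := by
      have : s₁ ^ 2 = 0 := by linear_combination e₂
      exact pow_eq_zero_iff (two_ne_zero) |>.1 this
    subst this
    have : (1 : K) = 0 := by linear_combination e₁
    exact one_ne_zero this
  obtain ⟨μ, hμ⟩ : ∃ μ, μ = s₁ ^ 2 - s₀ * s₂ + W.a₄ * s₂ ^ 2 := ⟨_, rfl⟩
  obtain ⟨ν, hν⟩ : ∃ ν, ν = s₀ * s₁ + W.a₆ * s₂ ^ 2 := ⟨_, rfl⟩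
  have i₂ : μ ^ 2 = x * s₂ ^ 2 + 2 * s₁ * s₂ := by
    rw [hμ]
    linear_combination s₂ ^ 2 * e₀ - 2 * s₁ * s₂ * e₁ + (s₁ ^ 2 - W.a₄ * s₂ ^ 2) * e₂
  have i₁ : 2 * μ * ν = -2 * x * s₁ * s₂ - s₁ ^ 2 + s₂ ^ 2 * W.a₄ := by
    rw [hμ, hν]
    linear_combination - 2 * s₁ * s₂ * e₀ + (s₁ ^ 2 - W.a₄ * s₂ ^ 2) * e₁
      + (2 * W.a₄ * s₁ * s₂ - W.a₆ * s₂ ^ 2) * e₂
  have i₀ : ν ^ 2 = x * s₁ ^ 2 + s₂ ^ 2 * W.a₆ := by
    rw [hν]
    linear_combination s₁ ^ 2 * e₀ - W.a₆ * s₂ ^ 2 * e₁ + 2 * W.a₆ * s₁ * s₂ * e₂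
  obtain ⟨u, hu⟩ : ∃ u, s₁ = u * s₂ := ⟨s₁ / s₂, by field_simp⟩
  obtain ⟨m, hm⟩ : ∃ m, μ = m * s₂ := ⟨μ / s₂, by field_simp⟩
  obtain ⟨n, hn⟩ : ∃ n, ν = n * s₂ := ⟨ν / s₂, by field_simp⟩
  have hs2 : s₂ ^ 2 ≠ 0 := pow_ne_zero _ hs
  have j₂ : m ^ 2 = x + 2 * u := by
    apply mul_right_cancel₀ hs2
    rw [hm, hu] at i₂
    linear_combination i₂
  have j₁ : 2 * m * n = -2 * x * u - u ^ 2 + W.a₄ := by
    apply mul_right_cancel₀ hs2
    rw [hm, hn, hu] at i₁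
    linear_combination i₁
  have j₀ : n ^ 2 = x * u ^ 2 + W.a₆ := by
    apply mul_right_cancel₀ hs2
    rw [hn, hu] at i₀
    linear_combination i₀
  obtain ⟨v, hv⟩ : ∃ v, v = m * u + n := ⟨_, rfl⟩
  have heq : W.toAffine.Equation u v := by
    rw [equation_iff, ha₁, ha₂, ha₃, hv]
    linear_combination u ^ 2 * j₂ + u * j₁ + j₀
  have hns : W.toAffine.Nonsingular u v := (equation_iff_nonsingular).1 heq
  have hder : 3 * u ^ 2 + W.a₄ = 2 * m * v := by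
    rw [hv]
    linear_combination -2 * u * j₂ - j₁
  have hv0 : v ≠ 0 := by
    intro hv0
    rw [nonsingular_iff, ha₁, ha₂, ha₃] at hns
    rcases hns.2 with h' | h'
    · apply h'
      rw [hv0] at hder
      rw [hv0]
      linear_combination -hder
    · apply h'
      rw [hv0]
      ring
  have hny : v ≠ W.toAffine.negY u v := by
    rw [negY, ha₁, ha₃]
    intro h'
    have : 2 * v = 0 := by linear_combination h'
    exact (mul_ne_zero h2 hv0) this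
  have hsl : W.toAffine.slope u u v v = m := by
    rw [slope_of_Y_ne rfl hny, negY, ha₁, ha₂, ha₃]
    have h2v : v - (-v - 0 * u - 0) ≠ 0 := by
      have : v - (-v - 0 * u - 0) = 2 * v := by ring
      rw [this]
      exact mul_ne_zero h2 hv0
    rw [div_eq_iff h2v]
    linear_combination hder
  have hX : W.toAffine.addX u u (W.toAffine.slope u u v v) = x := by
    rw [hsl, addX, ha₁, ha₂]
    linear_combination j₂
  have hY : W.toAffine.addY u u v (W.toAffine.slope u u v v) = -(m * x + n) := by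
    rw [addY, hX, negAddY, hX, hsl, negY, ha₁, ha₃, hv]
    ring
  have hy : y ^ 2 = (m * x + n) ^ 2 := by
    have := (equation_iff ..).1 h.1
    rw [ha₁, ha₂, ha₃] at this
    linear_combination this - x ^ 2 * j₂ - x * j₁ - j₀
  have hdbl : Point.some u v hns + Point.some u v hns =
      Point.some _ _ (nonsingular_add hns hns fun hxy => hny hxy.right) :=
    Point.add_self_of_Y_ne hny
  rcases sq_eq_sq_iff_eq_or_eq_neg.1 hy with hy | hy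
  · refine ⟨-Point.some u v hns, ?_⟩
    rw [← neg_add, hdbl, Point.neg_some]
    simp only [hX, hY, Point.some.injEq, true_and]
    rw [negY, ha₁, ha₃, hy]
    ring
  · refine ⟨Point.some u v hns, ?_⟩
    rw [hdbl]
    simp only [hX, hY, Point.some.injEq, true_and]
    exact hy.symm

/-- If `x - θ` is a square in `K[θ]` then the point `(x, y)` is twice a point. -/
theorem exists_half {K : Type} [Field K] [DecidableEq K] (h2 : (2 : K) ≠ 0) (A B : K)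
    [(⟨0, 0, 0, A, B⟩ : WeierstrassCurve K).IsElliptic] {x y : K}
    (h : (⟨0, 0, 0, A, B⟩ : WeierstrassCurve K).toAffine.Nonsingular x y)
    (hs : IsSquare (Cu.lin A B x 1)) :
    ∃ Q : (⟨0, 0, 0, A, B⟩ : WeierstrassCurve K).toAffine.Point, Point.some x y h = Q + Q := by
  obtain ⟨s, hs⟩ := hs
  have e₀ := congrArg Cu.x hs
  have e₁ := congrArg Cu.y hs
  have e₂ := congrArg Cu.z hs
  rw [Cu.mul_x] at e₀
  rw [Cu.mul_y] at e₁
  rw [Cu.mul_z] at e₂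
  simp only [Cu.lin] at e₀ e₁ e₂
  obtain ⟨Q, hQ⟩ := halve h2 (⟨0, 0, 0, A, B⟩ : WeierstrassCurve K) rfl rfl rfl
    (s₀ := s.x) (s₁ := s.y) (s₂ := s.z) h (by linear_combination -e₀)
    (by linear_combination -e₁) (by linear_combination -e₂)
  exact ⟨Q, hQ.symm⟩

end Pool.Agent.BSDP
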