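import Pool.Agent.Lib.BSDP.H.Pt

/-!
A point on the two-covering `Y ^ 2 = g (X, Z)` over a local field gives the local condition
`SelF 1` for the class `zcov`. If `Y ≠ 0` and `g₆ (X, Z) = 0`, replace `X` by `X + π ^ n`, `n` large:
`g (X + π ^ n, Z) / Y ^ 2` is `1` modulo the maximal ideal, hence a square, and `g₆ (U, Z)` has
finitely many roots `U` (its leading coefficient has square equal to the norm of `zcov`).
-/

set_option autoImplicit false

open Polynomial

namespace Pool.Agent.BSDP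

variable {F : Type} [Field F]

/-- An element congruent to `1` modulo the maximal ideal is a square. -/
private theorem exists_sq (L : Loc F) {m : F} (hm : L.O.valuation m < 1) : ∃ s, s ^ 2 = 1 + m := by
  have := L.hens
  have hmO : m ∈ L.O := (L.O.valuation_le_one_iff m).1 hm.le
  set m' : L.O := ⟨m, hmO⟩ with hm'
  have hmax : m' ∈ IsLocalRing.maximalIdeal L.O := (L.O.valuation_lt_one_iff m').2 hm
  have h2u : IsUnit (2 : L.O) := (L.O.valuation_eq_one_iff (2 : L.O)).2 L.two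
  obtain ⟨s, hs, -⟩ := HenselianLocalRing.is_henselian (X ^ 2 - C (1 + m') : L.O[X])
    (monic_X_pow_sub_C _ two_ne_zero) 1 (by
      simp only [eval_sub, eval_pow, eval_X, eval_C, one_pow]
      have : (1 : L.O) - (1 + m') = -m' := by ring
      rw [this]
      exact neg_mem hmax) (by
      simp only [derivative_sub, derivative_X_pow, derivative_C, eval_mul, eval_pow,
        eval_X, sub_zero, one_pow, mul_one]
      simpa using h2u)
  refine ⟨s, ?_⟩
  have h := hs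
  rw [IsRoot.def, eval_sub, eval_pow, eval_X, eval_C, sub_eq_zero] at h
  have h' := congrArg (fun z : L.O => (z : F)) h
  simpa [hm'] using h'

/-- The values of a polynomial at the powers of the uniformizer are bounded. -/
private theorem bounded (L : Loc F) (q : F[X]) :
    ∃ M : ℕ, ∀ n : ℕ, L.O.valuation (L.pi ^ M * q.eval (L.pi ^ n)) ≤ 1 := by
  have hpi : L.O.valuation L.pi < 1 := (L.pi_gen _).2 ⟨1, one_mem _, by rw [mul_one]⟩
  have hmono : ∀ (M N : ℕ) (x : F), M ≤ N → L.O.valuation (L.pi ^ M * x) ≤ 1 →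
      L.O.valuation (L.pi ^ N * x) ≤ 1 := by
    intro M N x hMN h
    obtain ⟨j, rfl⟩ := Nat.exists_eq_add_of_le hMN
    rw [pow_add, mul_assoc, mul_comm, mul_assoc, mul_comm x, map_mul, map_pow]
    exact mul_le_one' (pow_le_one' hpi.le j) h
  induction q using Polynomial.induction_on' with
  | add p q hp hq =>
    obtain ⟨M, hM⟩ := hp
    obtain ⟨N, hN⟩ := hq
    refine ⟨max M N, fun n => ?_⟩
    rw [eval_add, mul_add]
    refine (L.O.valuation.map_add _ _).trans (max_le ?_ ?_)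
    · exact hmono _ _ _ (le_max_left _ _) (hM n)
    · exact hmono _ _ _ (le_max_right _ _) (hN n)
  | monomial i a =>
    by_cases ha : a = 0
    · exact ⟨0, fun n => by simp [ha]⟩
    obtain ⟨z, u, hu, hau⟩ := L.exists_zpow a ha
    refine ⟨z.natAbs, fun n => ?_⟩
    rw [eval_monomial, hau]
    have h1 : L.O.valuation (L.pi ^ z.natAbs * L.pi ^ z) ≤ 1 := by
      rw [← zpow_natCast, ← zpow_add₀ L.pi_ne]
      obtain ⟨j, hj⟩ : ∃ j : ℕ, ((z.natAbs : ℤ) + z) = j :=
        Int.eq_ofNat_of_zero_le (by omega)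
      rw [hj, zpow_natCast, map_pow]
      exact pow_le_one' hpi.le j
    have h2 : L.O.valuation ((L.pi ^ n) ^ i) ≤ 1 := by
      rw [map_pow, map_pow]
      exact pow_le_one' (pow_le_one' hpi.le n) i
    rw [show L.pi ^ z.natAbs * (L.pi ^ z * u * (L.pi ^ n) ^ i) =
      (L.pi ^ z.natAbs * L.pi ^ z) * u * (L.pi ^ n) ^ i by ring, map_mul, map_mul, hu, mul_one]
    exact mul_le_one' h1 h2

/-- For `p` with `p (0) = 0` and `r ≠ 0` there is a small `h` with `r (X₀ + h) ≠ 0`. -/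
private theorem exists_small (L : Loc F) (q r : F[X]) (hr : r ≠ 0) (X₀ : F) :
    ∃ h : F, L.O.valuation (h * q.eval h) < 1 ∧ r.eval (X₀ + h) ≠ 0 := by
  have hpi : L.O.valuation L.pi < 1 := (L.pi_gen _).2 ⟨1, one_mem _, by rw [mul_one]⟩
  have hpi0 : 0 < L.O.valuation L.pi := (Valuation.pos_iff _).2 L.pi_ne
  obtain ⟨M, hM⟩ := bounded L q
  have hinj : Function.Injective fun n : ℕ => X₀ + L.pi ^ (M + 1 + n) := by
    intro m n hmn
    have h1 : L.pi ^ (M + 1 + m) = L.pi ^ (M + 1 + n) := add_left_cancel hmn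
    have h2 := congrArg L.O.valuation h1
    rw [map_pow, map_pow] at h2
    have h3 := (pow_right_strictAnti₀ hpi0 hpi).injective h2
    omega
  have hfin : {x : F | r.eval x = 0}.Finite := by
    have : {x : F | r.eval x = 0} = r.rootSet F := by
      ext x
      simp [mem_rootSet, hr]
    rw [this]
    exact r.rootSet_finite F
  obtain ⟨n, hn⟩ : ∃ n : ℕ, X₀ + L.pi ^ (M + 1 + n) ∉ {x : F | r.eval x = 0} := by
    by_contra hc
    push Not at hc
    exact (Set.infinite_of_injective_forall_mem hinj hc) hfin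
  refine ⟨L.pi ^ (M + 1 + n), ?_, hn⟩
  rw [show L.pi ^ (M + 1 + n) * q.eval (L.pi ^ (M + 1 + n)) =
    L.pi * L.pi ^ n * (L.pi ^ M * q.eval (L.pi ^ (M + 1 + n))) by ring, map_mul, map_mul, map_pow]
  calc L.O.valuation L.pi * L.O.valuation L.pi ^ n *
        L.O.valuation (L.pi ^ M * q.eval (L.pi ^ (M + 1 + n)))
      ≤ L.O.valuation L.pi * 1 * 1 :=
        mul_le_mul' (mul_le_mul' le_rfl (pow_le_one' hpi.le n)) (hM _)
    _ < 1 := by rw [mul_one, mul_one]; exact hpi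

/-- A point on the two-covering over a local field gives the local condition for its class. -/
theorem selF_zcov (L : Loc F) (h3 : (3 : F) ≠ 0) {A B a b c d e : F}
    (hI : 12 * a * e - 3 * b * d + c ^ 2 = -48 * A)
    (hJ : 72 * a * c * e + 9 * b * c * d - 27 * a * d ^ 2 - 27 * e * b ^ 2 - 2 * c ^ 3 =
      -1728 * B) (hD : 4 * A ^ 3 + 27 * B ^ 2 ≠ 0) (hn : (zcov A B a b c d e).norm ≠ 0)
    {X Z Y : F} (hXZ : X ≠ 0 ∨ Z ≠ 0)
    (hY : Y ^ 2 = a * X ^ 4 + b * X ^ 3 * Z + c * X ^ 2 * Z ^ 2 + d * X * Z ^ 3 + e * Z ^ 4) :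
    SelF 1 (zcov A B a b c d e) := by
  have h2 : (2 : F) ≠ 0 := by
    intro h
    have := L.two
    rw [h, map_zero] at this
    exact zero_ne_one this
  change Y ^ 2 = qg a b c d e X Z at hY
  by_cases hY0 : Y = 0
  · left
    refine selF_of_zero h2 h3 hI hJ hD hXZ ?_
    rw [← hY, hY0, zero_pow two_ne_zero]
  -- move the point
  obtain ⟨r6, hr6⟩ : ∃ r, r = b ^ 3 + 8 * a ^ 2 * d - 4 * a * b * c := ⟨_, rfl⟩
  have hr60 : r6 ≠ 0 := by
    intro h
    apply hn
    rw [norm_zcov h2 h3 hI hJ, ← hr6, h, zero_pow two_ne_zero]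
  obtain ⟨r, hr⟩ : ∃ r : F[X], r = C r6 * Polynomial.X ^ 6
    + C (2 * (16 * a ^ 2 * e + 2 * a * b * d - 4 * a * c ^ 2 + b ^ 2 * c) * Z) * Polynomial.X ^ 5
    + C (5 * (8 * a * b * e + b ^ 2 * d - 4 * a * c * d) * Z ^ 2) * Polynomial.X ^ 4
    + C (20 * (b ^ 2 * e - a * d ^ 2) * Z ^ 3) * Polynomial.X ^ 3
    + C (-(5 * (8 * a * d * e + b * d ^ 2 - 4 * b * c * e) * Z ^ 4)) * Polynomial.X ^ 2
    + C (-(2 * (16 * a * e ^ 2 + 2 * b * d * e - 4 * c ^ 2 * e + c * d ^ 2) * Z ^ 5)) *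
      Polynomial.X
    + C (-((d ^ 3 + 8 * b * e ^ 2 - 4 * c * d * e) * Z ^ 6)) := ⟨_, rfl⟩
  have hr0 : r ≠ 0 := by
    intro h
    have h6 : r.coeff 6 = r6 := by
      rw [hr]
      simp only [coeff_add, coeff_C_mul, coeff_X_pow, coeff_X, coeff_C]
      norm_num
    rw [h, coeff_zero] at h6
    exact hr60 h6.symm
  have hre : ∀ U, r.eval U = qg6 a b c d e U Z := by
    intro U
    rw [hr]
    simp only [eval_add, eval_mul, eval_C, eval_pow, eval_X, qg6, hr6]
    ring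
  obtain ⟨q, hq⟩ : ∃ q : F[X], q =
      C ((4 * a * X ^ 3 + 3 * b * X ^ 2 * Z + 2 * c * X * Z ^ 2 + d * Z ^ 3) / Y ^ 2)
      + C ((6 * a * X ^ 2 + 3 * b * X * Z + c * Z ^ 2) / Y ^ 2) * Polynomial.X
      + C ((4 * a * X + b * Z) / Y ^ 2) * Polynomial.X ^ 2
      + C (a / Y ^ 2) * Polynomial.X ^ 3 := ⟨_, rfl⟩
  have hqe : ∀ h, qg a b c d e (X + h) Z = Y ^ 2 * (1 + h * q.eval h) := by
    intro h
    have hY2 : Y ^ 2 ≠ 0 := pow_ne_zero 2 hY0
    rw [hq]
    simp only [eval_add, eval_mul, eval_C, eval_pow, eval_X]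
    have : Y ^ 2 * (1 + h * ((4 * a * X ^ 3 + 3 * b * X ^ 2 * Z + 2 * c * X * Z ^ 2 + d * Z ^ 3) /
        Y ^ 2 + (6 * a * X ^ 2 + 3 * b * X * Z + c * Z ^ 2) / Y ^ 2 * h +
        (4 * a * X + b * Z) / Y ^ 2 * h ^ 2 + a / Y ^ 2 * h ^ 3)) = Y ^ 2 +
        h * ((4 * a * X ^ 3 + 3 * b * X ^ 2 * Z + 2 * c * X * Z ^ 2 + d * Z ^ 3) +
        (6 * a * X ^ 2 + 3 * b * X * Z + c * Z ^ 2) * h +
        (4 * a * X + b * Z) * h ^ 2 + a * h ^ 3) := by
      field_simp
    rw [this, hY]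
    simp only [qg]
    ring
  obtain ⟨h, hh1, hh2⟩ := exists_small L q r hr0 X
  rw [hre] at hh2
  obtain ⟨s, hs⟩ := exists_sq L hh1
  have hs0 : s ≠ 0 := by
    rintro rfl
    rw [zero_pow two_ne_zero] at hs
    have : h * q.eval h = -1 := by linear_combination -hs
    rw [this, Valuation.map_neg, map_one] at hh1
    exact lt_irrefl _ hh1
  exact selF_of_point_generic h2 h3 hI hJ (Y := Y * s) (mul_ne_zero hY0 hs0)
    (by rw [hqe, mul_pow, hs]) hh2

end Pool.Agent.BSDP
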