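import Pool.Agent.Lib.BSDP.Def
import Pool.Agent.Lib.MP_48b749_nt.MW

/-!
An elliptic curve over `k(t)`, `k` finite, with `E(K) = 2 E(K)` has rank `0`, and `E(K)` is finite.
-/

set_option autoImplicit false

namespace Pool.Agent.BSDP

open BSDFF

private theorem index_one {G : Type*} [AddCommGroup G] (h : ∀ P : G, ∃ Q, P = Q + Q) :
    (MW.nG G 2).index = 1 := by
  rw [AddSubgroup.index_eq_one]
  rw [eq_top_iff]
  intro P _
  obtain ⟨Q, hQ⟩ := h P
  exact MW.mem_nG.2 ⟨Q, by rw [hQ, two_nsmul]⟩

/-- If every point of `E(K)` is twice a point then the rank is zero and `E(K)` is finite. -/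
theorem rank_zero_of_halves {k : Type} [Field k] [Finite k] [DecidableEq (RatFunc k)]
    (W : WeierstrassCurve (RatFunc k)) [W.IsElliptic]
    (h : ∀ P : W.toAffine.Point, ∃ Q : W.toAffine.Point, P = Q + Q) :
    algebraicRank W = 0 ∧ Finite W.toAffine.Point := by
  have hi := index_one h
  have hi0 : (MW.nG W.toAffine.Point 2).index ≠ 0 := by rw [hi]; exact one_ne_zero
  have he := MW.index_eq W le_rfl hi0
  rw [hi] at he
  have hr : algebraicRank W = 0 := by
    by_contra hr
    have h1 := Nat.eq_one_of_mul_eq_one_right he.symm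
    exact absurd h1 (Nat.one_lt_pow hr (by norm_num)).ne'
  refine ⟨hr, ?_⟩
  have hfin := MW.module_finite W le_rfl hi0
  rw [MW.algebraicRank_eq] at hr
  have ht : IsAddTorsion W.toAffine.Point := by
    have := Module.finrank_eq_zero_iff_isTorsion.1 hr
    exact isAddTorsion_iff_isTorsion_int.2 this
  have hfg : AddGroup.FG W.toAffine.Point := MW.fg_of_index W le_rfl hi0
  exact AddCommGroup.finite_of_fg_isAddTorsion _ ht

end Pool.Agent.BSDP
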