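import Pool.Agent.Lib.BSDP.Def

/-!
The isomorphism of the cubic algebra of the twist by `D` with that of the curve, and the local
Selmer conditions.
-/

set_option autoImplicit false

namespace Pool.Agent.BSDP

variable {F : Type} [Field F]

/-- `F[θ'] = F[θ]` for `θ' = D θ`, `θ' ^ 3 = - A' θ' - B'`, `A' = A D ^ 2`, `B' = B D ^ 3`:
`(x, y, z) ↦ (x, D y, D ^ 2 z)`. -/
def tw {A B A' B' : F} (D : F) (hD : D ≠ 0) (hA : A' = A * D ^ 2) (hB : B' = B * D ^ 3) :
    Cu A' B' ≃+* Cu A B where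
  toFun u := ⟨u.x, D * u.y, D ^ 2 * u.z⟩
  invFun u := ⟨u.x, D⁻¹ * u.y, (D ^ 2)⁻¹ * u.z⟩
  left_inv u := by
    ext
    · rfl
    · exact inv_mul_cancel_left₀ hD _
    · exact inv_mul_cancel_left₀ (pow_ne_zero 2 hD) _
  right_inv u := by
    ext
    · rfl
    · exact mul_inv_cancel_left₀ hD _
    · exact mul_inv_cancel_left₀ (pow_ne_zero 2 hD) _
  map_mul' u v := by
    subst hA
    subst hB
    ext <;> simp only [Cu.mul_x, Cu.mul_y, Cu.mul_z] <;> ring
  map_add' u v := by
    ext <;> simp only [Cu.add_x, Cu.add_y, Cu.add_z] <;> ring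

section
variable {A B A' B' : F} (D : F) (hD : D ≠ 0) (hA : A' = A * D ^ 2) (hB : B' = B * D ^ 3)

@[simp] theorem tw_x (u : Cu A' B') : (tw D hD hA hB u).x = u.x := rfl
@[simp] theorem tw_y (u : Cu A' B') : (tw D hD hA hB u).y = D * u.y := rfl
@[simp] theorem tw_z (u : Cu A' B') : (tw D hD hA hB u).z = D ^ 2 * u.z := rfl

theorem tw_lin (x : F) : tw D hD hA hB (Cu.lin A' B' x 1) = Cu.lin A B x D := by
  ext
  · rfl
  · simp [Cu.lin]
  · simp [Cu.lin]

theorem norm_tw (u : Cu A' B') : (tw D hD hA hB u).norm = u.norm := by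
  subst hA
  subst hB
  simp only [Cu.norm, tw_x, tw_y, tw_z]
  ring

theorem isSquare_tw (u : Cu A' B') : IsSquare (tw D hD hA hB u) ↔ IsSquare u :=
  ⟨fun h => by simpa using h.map (tw D hD hA hB).symm, fun h => h.map (tw D hD hA hB)⟩

/-- The local condition for the twist `E'` of `E` is the local condition `SelF D` for `E`. -/
theorem selF_tw (γ : Cu A' B') : SelF 1 γ ↔ SelF D (tw D hD hA hB γ) := by
  have key : ∀ x y : F, (y ^ 2 = x ^ 3 + A' * 1 ^ 2 * x + B' * 1 ^ 3) ↔
      (y ^ 2 = x ^ 3 + A * D ^ 2 * x + B * D ^ 3) := fun x y => by rw [hA, hB, one_pow, one_pow,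
        mul_one, mul_one]
  unfold SelF
  rw [isSquare_tw]
  refine or_congr_right (exists_congr fun x => exists_congr fun y => and_congr_right fun _ =>
    and_congr (key x y) ?_)
  rw [← tw_lin D hD hA hB, ← map_mul, isSquare_tw]

theorem map_tw {F' : Type} [Field F'] (φ : F →+* F') (γ : Cu A' B') :
    Cu.map φ (tw D hD hA hB γ) =
      tw (φ D) ((map_ne_zero φ).2 hD) (by rw [hA, map_mul, map_pow])
        (by rw [hB, map_mul, map_pow]) (Cu.map φ γ) := by
  ext <;> simp

/-- The local condition of the twist over an extension field. -/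
theorem selF_map_tw {F' : Type} [Field F'] (φ : F →+* F') (γ : Cu A' B') :
    SelF 1 (Cu.map φ γ) ↔ SelF (φ D) (Cu.map φ (tw D hD hA hB γ)) := by
  rw [map_tw, ← selF_tw]

end

end Pool.Agent.BSDP
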