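import Pool.Agent.Lib.BSDP.H.Loc
import Pool.Agent.Lib.BSDP.H.Glob
import Pool.Agent.Lib.BSDP.H.Halve
import Pool.Agent.Lib.BSDP.H.Rank
import Pool.Agent.Lib.BSDP.H.Tw

/-!
Consequences of the triviality of the `2`-Selmer group of `E : y ^ 2 = x ^ 3 + A x + B` over
`k(t)`: every point is twice a point, the rank is zero and `E(K)` is finite, and every everywhere
locally soluble binary quartic with invariants `I = -48 A`, `J = -1728 B` has a nontrivial zero
over `k(t)`.
-/

set_option autoImplicit false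

open Polynomial

namespace Pool.Agent.BSDP

open BSDFF

section
variable {k : Type} [Field k]

/-- The `2`-Selmer group is trivial: a class of square norm which satisfies the local condition at
every closed point is a square. -/
def SelTriv (A B : k[X]) : Prop :=
  ∀ γ : LK A B, (∃ n : RatFunc k, n ≠ 0 ∧ γ.norm = n ^ 2) →
    (∀ w : Place k (RatFunc k), SelF 1 (Cu.map w.toCompletion γ)) → IsSquare γ

private theorem natCast_ne {n : ℕ} (h : (n : k) ≠ 0) {F : Type} [Field F] (φ : RatFunc k →+* F) :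
    (n : F) ≠ 0 := by
  have h1 : (φ.comp (algebraMap k (RatFunc k))) (n : k) = (n : F) := map_natCast _ n
  rw [← h1]
  exact (_root_.map_ne_zero _).2 h

private theorem map_zcov {F F' : Type} [Field F] [Field F'] (φ : F →+* F') (A B a b c d e : F) :
    Cu.map φ (zcov A B a b c d e) = zcov (φ A) (φ B) (φ a) (φ b) (φ c) (φ d) (φ e) := by
  ext
  · simp [zcov, map_ofNat]
  · simp [zcov, map_ofNat]
  · simp [zcov]

private theorem disc_ne {A B : k[X]} (hD : 4 * A ^ 3 + 27 * B ^ 2 ≠ 0) {F : Type} [Field F]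
    (φ : RatFunc k →+* F) : 4 * (φ (cc A)) ^ 3 + 27 * (φ (cc B)) ^ 2 ≠ 0 := by
  have h : (φ.comp (algebraMap k[X] (RatFunc k))) (4 * A ^ 3 + 27 * B ^ 2) =
      4 * (φ (cc A)) ^ 3 + 27 * (φ (cc B)) ^ 2 := by
    simp [map_ofNat]
  rw [← h, RingHom.comp_apply]
  exact (_root_.map_ne_zero φ).2
    ((map_ne_zero_iff _ (IsFractionRing.injective k[X] (RatFunc k))).2 hD)

/-- **Sha[2] = 0**, in terms of quartics. -/
theorem SelTriv.quartic {A B : k[X]} (hsel : SelTriv A B) (h2 : (2 : k) ≠ 0) (h3 : (3 : k) ≠ 0)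
    (hD : 4 * A ^ 3 + 27 * B ^ 2 ≠ 0) (hdom : ∀ u : LK A B, u ≠ 0 → u.norm ≠ 0)
    (loc : ∀ w : Place k (RatFunc k), LocAt w) {a b c d e : RatFunc k}
    (hI : 12 * a * e - 3 * b * d + c ^ 2 = -48 * cc A)
    (hJ : 72 * a * c * e + 9 * b * c * d - 27 * a * d ^ 2 - 27 * e * b ^ 2 - 2 * c ^ 3 =
      -1728 * cc B)
    (hels : ∀ w : Place k (RatFunc k), ∃ X Z Y : w.ring.valuation.Completion,
      (X ≠ 0 ∨ Z ≠ 0) ∧ Y ^ 2 = w.toCompletion a * X ^ 4 + w.toCompletion b * X ^ 3 * Z +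
        w.toCompletion c * X ^ 2 * Z ^ 2 + w.toCompletion d * X * Z ^ 3 +
        w.toCompletion e * Z ^ 4) :
    ∃ X Z : RatFunc k, (X ≠ 0 ∨ Z ≠ 0) ∧
      a * X ^ 4 + b * X ^ 3 * Z + c * X ^ 2 * Z ^ 2 + d * X * Z ^ 3 + e * Z ^ 4 = 0 := by
  have h2' : (2 : RatFunc k) ≠ 0 := by
    simpa using natCast_ne (n := 2) (by simpa using h2) (RingHom.id (RatFunc k))
  have h3' : (3 : RatFunc k) ≠ 0 := by
    simpa using natCast_ne (n := 3) (by simpa using h3) (RingHom.id (RatFunc k))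
  by_cases ha : a = 0
  · exact ⟨1, 0, Or.inl one_ne_zero, by rw [ha]; ring⟩
  have hz0 : zcov (cc A) (cc B) a b c d e ≠ 0 := by
    intro h
    have := congrArg Cu.y h
    simp only [zcov, Cu.zero_y] at this
    rw [show (16 : RatFunc k) = 2 ^ 4 by norm_num] at this
    exact (mul_ne_zero (neg_ne_zero.2 (pow_ne_zero _ h2')) ha) this
  have hn := hdom _ hz0
  refine exists_zero_of_isSquare h2' h3' hI hJ
    (by simpa using disc_ne hD (RingHom.id (RatFunc k))) hdom (hsel _ ?_ ?_)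
  · refine ⟨b ^ 3 + 8 * a ^ 2 * d - 4 * a * b * c, ?_, norm_zcov h2' h3' hI hJ⟩
    intro h
    apply hn
    rw [norm_zcov h2' h3' hI hJ, h, zero_pow two_ne_zero]
  · intro w
    obtain ⟨X, Z, Y, hXZ, hY⟩ := hels w
    rw [map_zcov]
    have h3w : (3 : w.ring.valuation.Completion) ≠ 0 := by
      simpa using natCast_ne (n := 3) (by simpa using h3) w.toCompletion
    refine selF_zcov (loc w).toLoc h3w ?_ ?_ (disc_ne hD w.toCompletion) ?_ hXZ hY
    · have := congrArg w.toCompletion hI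
      simpa [map_ofNat] using this
    · have := congrArg w.toCompletion hJ
      simpa [map_ofNat] using this
    · rw [← map_zcov, Cu.norm_map]
      exact (_root_.map_ne_zero _).2 hn

variable [DecidableEq (RatFunc k)]

/-- Every point is twice a point. -/
theorem SelTriv.halves {A B : k[X]} (hsel : SelTriv A B) (h2 : (2 : k) ≠ 0)
    (hdom : ∀ u : LK A B, u ≠ 0 → u.norm ≠ 0)
    [(⟨0, 0, 0, cc A, cc B⟩ : WeierstrassCurve (RatFunc k)).IsElliptic]
    (P : (⟨0, 0, 0, cc A, cc B⟩ : WeierstrassCurve (RatFunc k)).toAffine.Point) :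
    ∃ Q : (⟨0, 0, 0, cc A, cc B⟩ : WeierstrassCurve (RatFunc k)).toAffine.Point, P = Q + Q := by
  have h2' : (2 : RatFunc k) ≠ 0 := by
    simpa using natCast_ne (n := 2) (by simpa using h2) (RingHom.id (RatFunc k))
  rcases P with _ | ⟨x, y, h⟩
  · exact ⟨0, (add_zero 0).symm⟩
  have heq : y ^ 2 = x ^ 3 + cc A * x + cc B := by
    have := (WeierstrassCurve.Affine.equation_iff ..).1 h.1
    linear_combination this
  have hn : (Cu.lin (cc A) (cc B) x 1).norm = y ^ 2 := by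
    rw [Cu.norm_lin, heq]
    ring
  have hlin : Cu.lin (cc A) (cc B) x 1 ≠ 0 := by
    intro h
    have := congrArg Cu.y h
    simp only [Cu.lin, Cu.zero_y] at this
    exact one_ne_zero (neg_eq_zero.1 this)
  have hy : y ≠ 0 := by
    rintro rfl
    apply hdom _ hlin
    rw [hn, zero_pow two_ne_zero]
  refine exists_half h2' (cc A) (cc B) h (hsel _ ⟨y, hy, hn⟩ fun w => ?_)
  right
  refine ⟨w.toCompletion x, w.toCompletion y, (_root_.map_ne_zero _).2 hy, ?_, ?_⟩
  · rw [← map_pow, heq]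
    simp
  · have : Cu.map w.toCompletion (Cu.lin (cc A) (cc B) x 1) =
        Cu.lin (w.toCompletion (cc A)) (w.toCompletion (cc B)) (w.toCompletion x) 1 := by
      ext <;> simp [Cu.lin]
    rw [this]
    exact ⟨_, rfl⟩

/-- The rank is zero and `E(K)` is finite. -/
theorem SelTriv.rank_zero [Finite k] {A B : k[X]} (hsel : SelTriv A B) (h2 : (2 : k) ≠ 0)
    (hdom : ∀ u : LK A B, u ≠ 0 → u.norm ≠ 0)
    [(⟨0, 0, 0, cc A, cc B⟩ : WeierstrassCurve (RatFunc k)).IsElliptic] :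
    algebraicRank (⟨0, 0, 0, cc A, cc B⟩ : WeierstrassCurve (RatFunc k)) = 0 ∧
    Finite (⟨0, 0, 0, cc A, cc B⟩ : WeierstrassCurve (RatFunc k)).toAffine.Point :=
  rank_zero_of_halves _ (hsel.halves h2 hdom)

end

end Pool.Agent.BSDP
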