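import Pool.Agent.Lib.BSDP.H.Alg

/-!
A point on the two-covering `Y ^ 2 = g (X, Z)` over a field gives the local condition `SelF 1` for
the class `zcov`: if `Y ≠ 0` and `g₆ (X, Z) ≠ 0`, with the point
`x = g₄ / (48 Y ^ 2)`, `y = g₆ / (4 Y) ^ 3` of `y ^ 2 = x ^ 3 + A x + B`, and
`zcov (x - θ) = (Q / (4 Y)) ^ 2`; if `Y = 0` then `g₄ / 3` is a nonzero square and
`zcov * (g₄ / 3) = Q ^ 2`, so `zcov` is a square.
-/

set_option autoImplicit false

namespace Pool.Agent.BSDP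

variable {F : Type} [Field F]

/-- The generic case. -/
theorem selF_of_point_generic (h2 : (2 : F) ≠ 0) (h3 : (3 : F) ≠ 0) {A B a b c d e : F}
    (hI : 12 * a * e - 3 * b * d + c ^ 2 = -48 * A)
    (hJ : 72 * a * c * e + 9 * b * c * d - 27 * a * d ^ 2 - 27 * e * b ^ 2 - 2 * c ^ 3 =
      -1728 * B) {X Z Y : F} (hY0 : Y ≠ 0) (hY : Y ^ 2 = qg a b c d e X Z)
    (h6 : qg6 a b c d e X Z ≠ 0) : SelF 1 (zcov A B a b c d e) := by
  right
  have h44 : (4 : F) ≠ 0 := by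
    have : (4 : F) = 2 ^ 2 := by norm_num
    rw [this]
    exact pow_ne_zero _ h2
  have h4 : (4 * Y) ≠ 0 := mul_ne_zero h44 hY0
  have h48 : (48 : F) ≠ 0 := by
    have : (48 : F) = 2 ^ 4 * 3 := by norm_num
    rw [this]
    exact mul_ne_zero (pow_ne_zero _ h2) h3
  have hzf : zform A B a b c d e X Z =
      ((4 * Y) ^ 2) • Cu.lin A B (qg4 a b c d e X Z / (48 * Y ^ 2)) 1 := by
    ext
    · simp only [zform, Cu.smul_x, Cu.lin]
      field_simp
      ring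
    · simp only [zform, Cu.smul_y, Cu.lin, ← hY]
      ring
    · simp only [zform, Cu.smul_z, Cu.lin]
      ring
  refine ⟨qg4 a b c d e X Z / (48 * Y ^ 2), qg6 a b c d e X Z / (4 * Y) ^ 3,
    div_ne_zero h6 (pow_ne_zero _ h4), ?_, ?_⟩
  · have hn := norm_zform h2 h3 hI hJ X Z
    rw [hzf, Algebra.smul_def, Cu.norm_mul, Cu.norm_algebraMap, Cu.norm_lin] at hn
    rw [div_pow, ← hn]
    rw [div_eq_iff (pow_ne_zero _ (pow_ne_zero _ h4))]
    ring
  · have hm := zcov_mul_zform h2 h3 hI hJ X Z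
    obtain ⟨Q, hQ⟩ : ∃ Q, Q = X ^ 2 • zcov A B a b c d e + (X * Z) • qc1 A B a b c d +
      Z ^ 2 • qc2 A B b c d := ⟨_, rfl⟩
    rw [← hQ, hzf] at hm
    refine ⟨(4 * Y)⁻¹ • Q, ?_⟩
    rw [smul_mul_smul_comm, ← hm, mul_smul_comm, smul_smul]
    rw [show (4 * Y)⁻¹ * (4 * Y)⁻¹ * (4 * Y) ^ 2 = 1 by field_simp, one_smul]

/-- If `g` vanishes at `(X, Z) ≠ 0` then `g₄ (X, Z) ≠ 0`. -/
private theorem qg4_ne_zero (h2 : (2 : F) ≠ 0) (h3 : (3 : F) ≠ 0) {A B a b c d e : F}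
    (hI : 12 * a * e - 3 * b * d + c ^ 2 = -48 * A)
    (hJ : 72 * a * c * e + 9 * b * c * d - 27 * a * d ^ 2 - 27 * e * b ^ 2 - 2 * c ^ 3 =
      -1728 * B) (hD : 4 * A ^ 3 + 27 * B ^ 2 ≠ 0) {X Z : F} (hXZ : X ≠ 0 ∨ Z ≠ 0)
    (hg : qg a b c d e X Z = 0) : qg4 a b c d e X Z ≠ 0 := by
  intro h4
  by_cases hX : X = 0
  · have hZ : Z ≠ 0 := by
      rcases hXZ with h | h
      · exact absurd hX h
      · exact h
    subst hX
    have he : e = 0 := by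
      apply mul_right_cancel₀ (pow_ne_zero 4 hZ)
      rw [zero_mul, ← hg]
      simp only [qg]
      ring
    subst he
    have hd : d = 0 := by
      have h : 3 * Z ^ 4 * d ^ 2 = 0 := by
        rw [← h4]
        simp only [qg4]
        ring
      have h' := (mul_eq_zero.1 h).resolve_left (mul_ne_zero h3 (pow_ne_zero 4 hZ))
      exact pow_eq_zero_iff two_ne_zero |>.1 h'
    subst hd
    exact hD (disc_eq_zero h2 h3 hI hJ (w := c) (by ring) (by ring))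
  · obtain ⟨t, ht⟩ : ∃ t, Z = t * X := ⟨Z / X, by field_simp⟩
    have hX4 := pow_ne_zero 4 hX
    have g0 : a + b * t + c * t ^ 2 + d * t ^ 3 + e * t ^ 4 = 0 := by
      apply mul_right_cancel₀ hX4
      rw [zero_mul, ← hg, ht]
      simp only [qg]
      ring
    have g1 : b + 2 * c * t + 3 * d * t ^ 2 + 4 * e * t ^ 3 = 0 := by
      have h : 3 * X ^ 4 * (b + 2 * c * t + 3 * d * t ^ 2 + 4 * e * t ^ 3) ^ 2 = 0 := by
        rw [ht] at h4
        simp only [qg4] at h4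
        linear_combination h4 + 8 * X ^ 4 * (c + 3 * d * t + 6 * e * t ^ 2) * g0
      have h' := (mul_eq_zero.1 h).resolve_left (mul_ne_zero h3 hX4)
      exact pow_eq_zero_iff two_ne_zero |>.1 h'
    obtain ⟨i1, i2⟩ := invs_of_double g0 g1
    exact hD (disc_eq_zero h2 h3 hI hJ i1 i2)

/-- The case of a zero of `g`. -/
theorem selF_of_zero (h2 : (2 : F) ≠ 0) (h3 : (3 : F) ≠ 0) {A B a b c d e : F}
    (hI : 12 * a * e - 3 * b * d + c ^ 2 = -48 * A)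
    (hJ : 72 * a * c * e + 9 * b * c * d - 27 * a * d ^ 2 - 27 * e * b ^ 2 - 2 * c ^ 3 =
      -1728 * B) (hD : 4 * A ^ 3 + 27 * B ^ 2 ≠ 0) {X Z : F} (hXZ : X ≠ 0 ∨ Z ≠ 0)
    (hg : qg a b c d e X Z = 0) : IsSquare (zcov A B a b c d e) := by
  have h4 := qg4_ne_zero h2 h3 hI hJ hD hXZ hg
  obtain ⟨u, hu⟩ : ∃ u, u = qg4 a b c d e X Z / 3 := ⟨_, rfl⟩
  have hu0 : u ≠ 0 := by rw [hu]; exact div_ne_zero h4 h3
  have hzf : zform A B a b c d e X Z = algebraMap F (Cu A B) u := by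
    ext
    · simp only [zform, Cu.algebraMap_x, hu]
    · simp only [zform, Cu.algebraMap_y, hg, mul_zero]
    · simp only [zform, Cu.algebraMap_z]
  have hn := norm_zform h2 h3 hI hJ X Z
  rw [hzf, Cu.norm_algebraMap] at hn
  have h6 : qg6 a b c d e X Z ≠ 0 := by
    intro h
    rw [h, zero_pow two_ne_zero] at hn
    exact (pow_ne_zero 3 hu0) hn
  have hm := zcov_mul_zform h2 h3 hI hJ X Z
  obtain ⟨Q, hQ⟩ : ∃ Q, Q = X ^ 2 • zcov A B a b c d e + (X * Z) • qc1 A B a b c d +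
    Z ^ 2 • qc2 A B b c d := ⟨_, rfl⟩
  rw [← hQ, hzf, mul_comm, ← Algebra.smul_def] at hm
  refine ⟨(u / qg6 a b c d e X Z) • Q, ?_⟩
  rw [smul_mul_smul_comm, ← hm, smul_smul]
  have : u / qg6 a b c d e X Z * (u / qg6 a b c d e X Z) * u = 1 := by
    field_simp
    linear_combination hn
  rw [this, one_smul]

end Pool.Agent.BSDP
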